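import Mathlib
import Pool.Agent.R974.FP.F

/-!
# MP_40890c_pr : waiting time for negative first passage walk patterns

For every `λ < 0`,
`E T(FP^{λ,n}) ~ (e^{λ²/2} / (2 √(2π) |λ|)) · n log n`.
-/

namespace Pool.Agent.Results.MP_40890c_pr.WaitingTime

open MeasureTheory ProbabilityTheory Filter Topology Pool.Agent.R974.FP
open scoped ENNReal

/-- `SW(n)`: lattice paths `(w(0),…,w(n))` with `w(0)=0` and increments `±1`. -/
def SW (n : ℕ) : Set (Fin (n+1) → ℤ) :=
  {w | w 0 = 0 ∧ ∀ i : Fin n, w i.succ - w i.castSucc = 1 ∨ w i.succ - w i.castSucc = -1}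

/-- First passage walks of length `n` with final level `l`:
`w ∈ SW(n)` and `w(i) > w(n) = l` for `0 ≤ i ≤ n-1`. -/
def FPset (n : ℕ) (l : ℤ) : Set (Fin (n+1) → ℤ) :=
  {w | w ∈ SW n ∧ w (Fin.last n) = l ∧ ∀ i : Fin n, w (Fin.last n) < w i.castSucc}

/-- `T(A) = min{m ≥ n : (S_{m-n+i} - S_{m-n})_{0≤i≤n} ∈ A}` (`⊤` if there is no such `m`). -/
noncomputable def T {n : ℕ} (A : Set (Fin (n+1) → ℤ)) (S : ℕ → ℤ) : ℕ∞ :=
  ⨅ (m : ℕ) (_ : n ≤ m ∧ (fun i : Fin (n+1) => S (m - n + i) - S (m - n)) ∈ A), (m : ℕ∞)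

/-- The simple random walk path `m ↦ S_m = X_1 + … + X_m` (steps indexed from `0` in Lean). -/
def walk {Ω : Type*} (X : ℕ → Ω → ℤ) (ω : Ω) (m : ℕ) : ℤ := ∑ i ∈ Finset.range m, X i ω

/-- `E T(FP^{.,n})` for the set of first passage walks with final level `l`. -/
noncomputable def ET {Ω : Type*} [MeasurableSpace Ω] (P : Measure Ω) (X : ℕ → Ω → ℤ) (n : ℕ) (l : ℤ) :
    ℝ≥0∞ := ∫⁻ ω, ((T (FPset n l) (walk X ω) : ℕ∞) : ℝ≥0∞) ∂P

/-- The level `λ_n` built from an integer part function `r`: `[λ√n]` if this has the parity of `n`,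
and `[λ√n]+1` otherwise. -/
noncomputable def lamN (r : ℝ → ℤ) (lam : ℝ) (n : ℕ) : ℤ :=
  if (r (lam * √n) - n) % 2 = 0 then r (lam * √n) else r (lam * √n) + 1

/-- Truncation toward zero (the other reading of integer part for negative reals). -/
noncomputable def truncZ (x : ℝ) : ℤ := if 0 ≤ x then ⌊x⌋ else ⌈x⌉

theorem ENat_tsum (t : ℕ∞) : (t : ℝ≥0∞) = ∑' m : ℕ, if (m : ℕ∞) < t then 1 else 0 := by
  induction t using ENat.recTopCoe with
  | top =>
    have : ∀ m : ℕ, ((m : ℕ∞) < ⊤) := fun m => ENat.natCast_lt_top m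
    simp only [this, if_true]
    rw [ENNReal.tsum_const_eq_top_of_ne_zero one_ne_zero]
    rfl
  | coe k =>
    have h1 : (∑' m : ℕ, if ((m:ℕ∞) < (k:ℕ∞)) then (1:ℝ≥0∞) else 0) = ∑ m ∈ Finset.range k, 1 := by
      rw [tsum_eq_sum (s := Finset.range k)]
      · apply Finset.sum_congr rfl
        intro m hm
        rw [Finset.mem_range] at hm
        have : (m:ℕ∞) < (k:ℕ∞) := by exact_mod_cast hm
        simp [this]
      · intro m hm
        rw [Finset.mem_range] at hm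
        have : ¬ (m:ℕ∞) < (k:ℕ∞) := by
          intro h; apply hm; exact_mod_cast h
        simp [this]
    rw [h1]; simp

theorem walk_D {Ω : Type*} (X : ℕ → Ω → ℤ) (ω : Ω) (a j : ℕ) : walk X ω (a+j) - walk X ω a = D X a j ω := by
  unfold walk D
  rw [Finset.sum_range_add]
  ring

theorem occ_iff {Ω : Type*} (X : ℕ → Ω → ℤ) (ω : Ω) (hs : ∀ i, X i ω = 1 ∨ X i ω = -1) (n : ℕ) (l : ℤ)
    (a : ℕ) : (fun i : Fin (n+1) => walk X ω (a + i) - walk X ω a) ∈ FPset n l ↔ ω ∈ FPe X a n (-l) := by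
  have e : (fun i : Fin (n+1) => walk X ω (a + i) - walk X ω a) = fun i : Fin (n+1) => D X a i ω := by
    funext i; exact walk_D X ω a i
  rw [e]
  have hlhs : (fun i : Fin (n+1) => D X a i ω) ∈ FPset n l ↔
      ((D X a 0 ω = 0 ∧ ∀ i : Fin n, D X a (i+1) ω - D X a i ω = 1 ∨ D X a (i+1) ω - D X a i ω = -1) ∧
        D X a n ω = l ∧ ∀ i : Fin n, D X a n ω < D X a i ω) := by
    unfold FPset SW
    simp only [Set.mem_ofPred_eq, Fin.val_zero, Fin.val_succ, Fin.val_castSucc, Fin.val_last]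
  have hrhs : ω ∈ FPe X a n (-l) ↔ (D X a n ω = - -l ∧ ∀ i < n, D X a n ω < D X a i ω) := Iff.rfl
  rw [hlhs, hrhs, neg_neg]
  constructor
  · rintro ⟨_, h1, h2⟩
    exact ⟨h1, fun i hi => h2 ⟨i, hi⟩⟩
  · rintro ⟨h1, h2⟩
    refine ⟨⟨D_zero _ _ _, fun i => ?_⟩, h1, fun i => h2 i i.2⟩
    rw [D_succ]
    rcases hs (a+i) with h | h
    · left; rw [h]; ring
    · right; rw [h]; ring

theorem lt_T_iff {Ω : Type*} (X : ℕ → Ω → ℤ) (ω : Ω) (hs : ∀ i, X i ω = 1 ∨ X i ω = -1) (n : ℕ) (l : ℤ)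
    (m : ℕ) : ((m : ℕ∞) < T (FPset n l) (walk X ω)) ↔ ω ∈ QQ X n (-l) m := by
  have hQ : ω ∈ QQ X n (-l) m ↔ ∀ b, b + n ≤ m → ω ∉ FPe X b n (-l) := Iff.rfl
  rw [hQ]
  have h1 : ∀ k : ℕ, n ≤ k → ((fun i : Fin (n+1) => walk X ω (k - n + i) - walk X ω (k - n)) ∈ FPset n l ↔
      ω ∈ FPe X (k-n) n (-l)) := fun k _ => occ_iff X ω hs n l (k-n)
  constructor
  · intro h b hb hcon
    have h2 : T (FPset n l) (walk X ω) ≤ ((b+n : ℕ) : ℕ∞) := by
      unfold T
      refine iInf₂_le (b+n) ⟨by omega, ?_⟩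
      rw [h1 (b+n) (by omega)]
      have : b + n - n = b := by omega
      rw [this]; exact hcon
    have h3 := lt_of_lt_of_le h h2
    have h4 : m < b + n := by exact_mod_cast h3
    omega
  · intro h
    have h2 : ((m+1 : ℕ) : ℕ∞) ≤ T (FPset n l) (walk X ω) := by
      unfold T
      refine le_iInf₂ (fun k hk => ?_)
      have h3 := (h1 k hk.1).mp hk.2
      by_contra hcon
      push Not at hcon
      have h4 : k < m + 1 := by exact_mod_cast hcon
      exact h (k-n) (by omega) h3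
    refine lt_of_lt_of_le ?_ h2
    exact_mod_cast Nat.lt_succ_self m

theorem ET_eq {Ω : Type*} [MeasurableSpace Ω] (P : Measure Ω) [IsProbabilityMeasure P]
    {X : ℕ → Ω → ℤ} (hW : Walk P X) (n : ℕ) (l : ℤ) :
    ET P X n l = ∑' m, P (QQ X n (-l) m) := by
  unfold ET
  have hae : ∀ᵐ ω ∂P, ∀ i, X i ω = 1 ∨ X i ω = -1 := ae_all_iff.mpr (fun i => ae_sign hW i)
  have h1 : ∀ᵐ ω ∂P, ((T (FPset n l) (walk X ω) : ℕ∞) : ℝ≥0∞) =
      ∑' m : ℕ, (QQ X n (-l) m).indicator (fun _ => (1:ℝ≥0∞)) ω := by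
    filter_upwards [hae] with ω hω
    rw [ENat_tsum]
    congr 1
    funext m
    by_cases h : (m : ℕ∞) < T (FPset n l) (walk X ω)
    · rw [if_pos h, Set.indicator_of_mem ((lt_T_iff X ω hω n l m).mp h)]
    · rw [if_neg h, Set.indicator_of_notMem (fun h' => h ((lt_T_iff X ω hω n l m).mpr h'))]
  have hm : ∀ m, MeasurableSet (QQ X n (-l) m) := fun m => det_meas hW.meas (QQ_det X n (-l) m)
  rw [lintegral_congr_ae h1, lintegral_tsum (fun m => (measurable_const.indicator (hm m)).aemeasurable)]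
  congr 1
  funext m
  rw [lintegral_indicator_const (hm m), one_mul]

theorem general {Ω : Type*} [MeasurableSpace Ω] (P : Measure Ω) [IsProbabilityMeasure P]
    {X : ℕ → Ω → ℤ} (hW : Walk P X) {lam : ℝ} (hlam : lam < 0)
    (l : ℕ → ℤ) (hpar : ∀ᶠ n : ℕ in atTop, (l n - n) % 2 = 0)
    (hl : Tendsto (fun n : ℕ => (l n : ℝ)/√n) atTop (𝓝 lam)) :
    (∀ᶠ n : ℕ in atTop, ET P X n (l n) ≠ ⊤) ∧
    Tendsto (fun n : ℕ => (ET P X n (l n)).toReal / (n * Real.log n)) atTop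
      (𝓝 (Real.exp (lam^2/2) / (2 * √(2*Real.pi) * |lam|))) := by
  have h := asymp hW (fun n => - l n) (by
    filter_upwards [hpar] with n hn
    omega) (abs_pos.mpr hlam.ne) (by
    rw [abs_of_neg hlam]
    refine hl.neg.congr (fun n => ?_)
    push_cast; ring)
  rw [sq_abs] at h
  simp_rw [← ET_eq P hW] at h
  exact h

theorem lamN_ok (r : ℝ → ℤ) (hr : ∀ x, |(r x : ℝ) - x| ≤ 1) (lam : ℝ) :
    (∀ᶠ n : ℕ in atTop, (lamN r lam n - n) % 2 = 0) ∧
    Tendsto (fun n : ℕ => (lamN r lam n : ℝ)/√n) atTop (𝓝 lam) := by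
  constructor
  · refine Eventually.of_forall (fun n => ?_)
    unfold lamN
    split_ifs with h
    · exact h
    · omega
  · have hsq : Tendsto (fun n : ℕ => √(n:ℝ)) atTop atTop :=
      Real.tendsto_sqrt_atTop.comp tendsto_natCast_atTop_atTop
    have hinv : Tendsto (fun n : ℕ => (√(n:ℝ))⁻¹) atTop (𝓝 0) := tendsto_inv_atTop_zero.comp hsq
    have h1 : ∀ n : ℕ, |(lamN r lam n : ℝ) - lam * √n| ≤ 2 := by
      intro n
      have h2 := hr (lam * √n)
      unfold lamN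
      rw [abs_le] at h2 ⊢
      split_ifs
      · constructor <;> linarith
      · push_cast
        constructor <;> linarith
    have h3 : Tendsto (fun n : ℕ => (lamN r lam n : ℝ)/√n - lam) atTop (𝓝 0) := by
      have h4 : Tendsto (fun n : ℕ => 2 * (√(n:ℝ))⁻¹) atTop (𝓝 0) := by
        simpa using hinv.const_mul 2
      refine squeeze_zero_norm' ?_ h4
      filter_upwards [eventually_gt_atTop 0] with n hn
      have hn' : (0:ℝ) < n := by exact_mod_cast hn
      have hs : 0 < √(n:ℝ) := Real.sqrt_pos.mpr hn'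
      have e : (lamN r lam n : ℝ)/√n - lam = ((lamN r lam n : ℝ) - lam * √n) * (√(n:ℝ))⁻¹ := by
        field_simp
      rw [Real.norm_eq_abs, e, abs_mul, abs_of_pos (inv_pos.mpr hs)]
      exact mul_le_mul_of_nonneg_right (h1 n) (inv_pos.mpr hs).le
    have h5 := h3.add_const lam
    rw [zero_add] at h5
    refine h5.congr (fun n => ?_)
    ring

/-- **Exact asymptotics of the expected waiting time for negative first passage walk patterns.**
Let `X_1, X_2, …` be i.i.d. fair signs and `λ < 0`.  Then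
`E T(FP^{λ,n}) ~ e^{λ²/2}/(2√(2π)|λ|) · n log n`, for `λ_n` defined with either reading of the integer
part (floor, or truncation toward zero), and more generally for every sequence of levels `l n` with the
parity of `n` and `l n/√n → λ`. -/
theorem result {Ω : Type*} [MeasurableSpace Ω] (P : Measure Ω) [IsProbabilityMeasure P]
    (X : ℕ → Ω → ℤ) (hX : ∀ i, Measurable (X i)) (hind : iIndepFun X P)
    (hp : ∀ i, P {ω | X i ω = 1} = 1/2) (hm : ∀ i, P {ω | X i ω = -1} = 1/2)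
    (lam : ℝ) (hlam : lam < 0) :
    ((∀ᶠ n : ℕ in atTop, ET P X n (lamN Int.floor lam n) ≠ ⊤) ∧
      Tendsto (fun n : ℕ => (ET P X n (lamN Int.floor lam n)).toReal / (n * Real.log n)) atTop
        (𝓝 (Real.exp (lam^2/2) / (2 * √(2*Real.pi) * |lam|)))) ∧
    ((∀ᶠ n : ℕ in atTop, ET P X n (lamN truncZ lam n) ≠ ⊤) ∧
      Tendsto (fun n : ℕ => (ET P X n (lamN truncZ lam n)).toReal / (n * Real.log n)) atTop
        (𝓝 (Real.exp (lam^2/2) / (2 * √(2*Real.pi) * |lam|)))) ∧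
    (∀ l : ℕ → ℤ, (∀ᶠ n : ℕ in atTop, (l n - n) % 2 = 0) →
      Tendsto (fun n : ℕ => (l n : ℝ)/√n) atTop (𝓝 lam) →
      (∀ᶠ n : ℕ in atTop, ET P X n (l n) ≠ ⊤) ∧
      Tendsto (fun n : ℕ => (ET P X n (l n)).toReal / (n * Real.log n)) atTop
        (𝓝 (Real.exp (lam^2/2) / (2 * √(2*Real.pi) * |lam|)))) := by
  have hW : Walk P X := ⟨hX, hind, hp, hm⟩
  have hfl := lamN_ok Int.floor (by
    intro x
    have h1 := Int.floor_le x
    have h2 := Int.lt_floor_add_one x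
    rw [abs_le]; constructor <;> linarith) lam
  have htr := lamN_ok truncZ (by
    intro x
    unfold truncZ
    split_ifs
    · have h1 := Int.floor_le x
      have h2 := Int.lt_floor_add_one x
      rw [abs_le]; constructor <;> linarith
    · have h1 := Int.le_ceil x
      have h2 := Int.ceil_lt_add_one x
      rw [abs_le]; constructor <;> linarith) lam
  exact ⟨general P hW hlam _ hfl.1 hfl.2, general P hW hlam _ htr.1 htr.2,
    fun l h1 h2 => general P hW hlam l h1 h2⟩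

end Pool.Agent.Results.MP_40890c_pr.WaitingTime
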